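import Pool.Agent.E8helper36.CF.Ed

/-! # Project CF36: assembly -/

set_option autoImplicit false

namespace Pool.Agent.E8helper36.CF

variable {n : ℕ}

lemma rot_B_A (hn : 0 < n) : RotBy 1 (matB n) (matA n) := by
  intro i
  apply Fin.ext
  have hi := i.2
  simp only [sh, matA, matB]
  rcases Nat.lt_or_ge ((i : ℕ) + 1) (2 * n) with h | h
  · rw [Nat.mod_eq_of_lt h]
    rcases Nat.mod_two_eq_zero_or_one (i : ℕ) with h1 | h1
    · rw [if_neg (by omega), if_neg (by omega)]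
      by_cases h2 : (i : ℕ) = 0
      · rw [if_pos h2, h2, show 2 * n - 1 + 1 = 2 * n by omega, Nat.mod_self]
      · rw [if_neg h2, Nat.mod_eq_of_lt (by omega)]
        omega
    · rw [if_pos (by omega), if_pos h1, if_neg (by omega), Nat.mod_eq_of_lt (by omega)]
  · have h2 : (i : ℕ) + 1 = 2 * n := by omega
    rw [h2, Nat.mod_self, if_pos (by omega), if_pos (by omega), if_pos rfl,
      Nat.mod_eq_of_lt (by omega)]

lemma Dm_rot {s : ℕ} {M M1 : Matching n} (h : RotBy s M M1) (hM : Dm M) : Dm M1 := by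
  obtain ⟨i, hi⟩ := hM
  have hi2 := i.2
  have hj2 := (M.m i).2
  have e1 : ((sh n s i : Fin (2 * n)) : ℕ) = ((i : ℕ) + s) % (2 * n) := rfl
  have e2 : ((sh n s (M.m i) : Fin (2 * n)) : ℕ) = ((i : ℕ) + s + n) % (2 * n) := by
    show ((M.m i : ℕ) + s) % (2 * n) = _
    rw [hi]
    congr 1
    ring
  have hlt : ((i : ℕ) + s) % (2 * n) < 2 * n := Nat.mod_lt _ (by omega)
  rcases Nat.lt_or_ge (((i : ℕ) + s) % (2 * n)) n with h1 | h1
  · refine ⟨sh n s i, ?_⟩
    rw [h i, e2, e1, Nat.add_mod, Nat.mod_eq_of_lt (show n < 2 * n by omega),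
      Nat.mod_eq_of_lt (by omega)]
  · refine ⟨sh n s (M.m i), ?_⟩
    have h2 : M1.m (sh n s (M.m i)) = sh n s i := by rw [← h i, M1.inv]
    have h3 : ((i : ℕ) + s + n) % (2 * n) = ((i : ℕ) + s) % (2 * n) - n := by
      rw [Nat.add_mod, Nat.mod_eq_of_lt (show n < 2 * n by omega), Nat.mod_eq_sub_mod (by omega),
        Nat.mod_eq_of_lt (by omega)]
      omega
    rw [h2, e2, e1, h3]
    omega

lemma le_edist (hn : Odd n) {M N : Matching n} {k : ℕ} (h : (2 * n * k : ℤ) ≤ |Pot N - Pot M|) :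
    (k : ℕ∞) ≤ (H n).edist M N := by
  unfold SimpleGraph.edist
  refine le_iInf fun w => ?_
  have h1 := h.trans (walk_le hn w)
  have hpos : (0 : ℤ) < 2 * n := by
    have := hn.pos
    positivity
  have h2 : (k : ℤ) ≤ w.length := le_of_mul_le_mul_left h1 hpos
  exact_mod_cast h2

/-- the distances of a matching with a diameter to `matA` and `matB` -/
lemma dist_AB (hC : S_CEN) (hR : S_ROT) (hI : S_IND) (hn : Odd n) (h3 : 3 ≤ n) (M : Matching n)
    (hM : Dm M) : ∃ k l : ℕ, (H n).edist M (matA n) = k ∧ (H n).edist M (matB n) = l ∧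
      k + l = 3 * n - 7 ∧ (2 * n * k : ℤ) = n * (3 * n - 7) - Pot M ∧
      (2 * n * l : ℤ) = n * (3 * n - 7) + Pot M := by
  obtain ⟨M1, h1⟩ := (hR n 1 hn).1 M
  obtain ⟨k, hk1, hk2⟩ := hI n hn h3 M hM
  obtain ⟨l, hl1, hl2⟩ := hI n hn h3 M1 (Dm_rot h1 hM)
  have hp := (hR n 1 hn).2.2 M M1 h1
  rw [edist_rot hC hR hn h1 (rot_B_A hn.pos)] at hl1
  rw [hp] at hl2
  have hn0 : (0 : ℤ) < n := by exact_mod_cast hn.pos
  refine ⟨k, l, le_antisymm hk1 (le_edist hn ?_), le_antisymm hl1 (le_edist hn ?_), ?_,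
    by linarith, by linarith⟩
  · rw [pot_A h3]
    refine le_trans ?_ (le_abs_self _)
    linarith
  · rw [pot_B h3]
    refine le_trans ?_ (neg_le_abs _)
    linarith
  · have h4 : (2 * n : ℤ) * (k + l) = 2 * n * (3 * n - 7) := by linarith
    have h5 : (k + l : ℤ) = 3 * n - 7 := by
      exact mul_left_cancel₀ (by positivity) h4
    omega

lemma dist_pair (hC : S_CEN) (hR : S_ROT) (hI : S_IND) (hn : Odd n) (h3 : 3 ≤ n)
    (M M' : Matching n) (hM : Dm M) (hM' : Dm M') :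
    (H n).edist M M' ≤ ((3 * n - 7 : ℕ) : ℕ∞) := by
  obtain ⟨k, l, h1, h2, h3', -, -⟩ := dist_AB hC hR hI hn h3 M hM
  obtain ⟨k', l', g1, g2, g3, -, -⟩ := dist_AB hC hR hI hn h3 M' hM'
  rcases le_total (k + k') (3 * n - 7) with h | h
  · calc (H n).edist M M' ≤ (H n).edist M (matA n) + (H n).edist (matA n) M' :=
        SimpleGraph.edist_triangle
      _ = ((k + k' : ℕ) : ℕ∞) := by
        rw [SimpleGraph.edist_comm (u := matA n), h1, g1]; push_cast; rfl
      _ ≤ _ := by exact_mod_cast h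
  · calc (H n).edist M M' ≤ (H n).edist M (matB n) + (H n).edist (matB n) M' :=
        SimpleGraph.edist_triangle
      _ = ((l + l' : ℕ) : ℕ∞) := by
        rw [SimpleGraph.edist_comm (u := matB n), h2, g2]; push_cast; rfl
      _ ≤ _ := by exact_mod_cast (by omega : l + l' ≤ 3 * n - 7)

lemma dist_all (hC : S_CEN) (hR : S_ROT) (hI : S_IND) (hU : S_UU) (hn : Odd n) (h5 : 5 ≤ n)
    (M M' : Matching n) : (H n).edist M M' ≤ ((4 * n - 10 : ℕ) : ℕ∞) := by
  obtain ⟨D, hD, h1⟩ := hU n hn h5 M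
  obtain ⟨D', hD', h2⟩ := hU n hn h5 M'
  have h3 := dist_pair hC hR hI hn (by omega) D D' hD hD'
  calc (H n).edist M M' ≤ (H n).edist M D + (H n).edist D M' := SimpleGraph.edist_triangle
    _ ≤ (H n).edist M D + ((H n).edist D D' + (H n).edist D' M') := by
      gcongr
      exact SimpleGraph.edist_triangle
    _ ≤ (((n - 3) / 2 : ℕ) : ℕ∞) + (((3 * n - 7 : ℕ) : ℕ∞) + (((n - 3) / 2 : ℕ) : ℕ∞)) := by
      rw [SimpleGraph.edist_comm (u := D')]
      gcongr
    _ = (((n - 3) / 2 + (3 * n - 7 + (n - 3) / 2) : ℕ) : ℕ∞) := by push_cast; rfl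
    _ ≤ _ := by
      obtain ⟨k, hk⟩ := hn
      exact_mod_cast (by omega : (n - 3) / 2 + (3 * n - 7 + (n - 3) / 2) ≤ 4 * n - 10)

end Pool.Agent.E8helper36.CF
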