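import Pool.Agent.E8helper36.CF.Stm2

/-!
# Project CF36: matchings with a diameter and their neighbours. Statements.
-/

set_option autoImplicit false

namespace Pool.Agent.E8helper36.CF

variable {n : ℕ}

/-- `M` contains a diameter, or a centered flip of `M` does -/
def Near (M : Matching n) : Prop := Dm M ∨ ∃ M', CF M M' ∧ Dm M'

/-- NB -/
def S_NB : Prop := ∀ (n : ℕ), Odd n → 3 ≤ n → ∀ M M' : Matching n, Nrm M → CF M M' → Dm M' →
  (∃ u v, Top M u ∧ Top M v ∧ ((v : ℕ) + 1 = u + n ∨ (v : ℕ) = u + n + 1)) ∧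
    Pot M' + 2 * n = Pot M

/-- UU3: every matching is near a matching with `Near`. -/
def S_UU3 : Prop := ∀ (n : ℕ), Odd n → 3 ≤ n → ∀ M : Matching n,
  ∃ M' : Matching n, Near M' ∧ (H n).edist M M' ≤ (((n - 3) / 6 : ℕ) : ℕ∞)

end Pool.Agent.E8helper36.CF
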