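import Pool.Agent.E8helper36.CF.Asm
import Pool.Agent.E8helper36.CF.Stm3

/-! # Project CF36: assembly, part 2 -/

set_option autoImplicit false

namespace Pool.Agent.E8helper36.CF

variable {n : ℕ}

/-- the distances of `M` to `matA` and `matB` are given by the weight -/
def Ex (M : Matching n) : Prop := ∃ k l : ℕ, (H n).edist M (matA n) = k ∧
  (H n).edist M (matB n) = l ∧ k + l = 3 * n - 7 ∧ (2 * n * k : ℤ) = n * (3 * n - 7) - Pot M ∧
  (2 * n * l : ℤ) = n * (3 * n - 7) + Pot M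

lemma mk_Ex (hn : Odd n) (h3 : 3 ≤ n) {M : Matching n} {k l : ℕ}
    (h1 : (H n).edist M (matA n) ≤ k) (h2 : (H n).edist M (matB n) ≤ l)
    (hk : (2 * n * k : ℤ) = n * (3 * n - 7) - Pot M)
    (hl : (2 * n * l : ℤ) = n * (3 * n - 7) + Pot M) : Ex M := by
  have hn0 : (0 : ℤ) < n := by exact_mod_cast hn.pos
  refine ⟨k, l, le_antisymm h1 (le_edist hn ?_), le_antisymm h2 (le_edist hn ?_), ?_, hk, hl⟩
  · rw [pot_A h3]
    refine le_trans ?_ (le_abs_self _)
    linarith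
  · rw [pot_B h3]
    refine le_trans ?_ (neg_le_abs _)
    linarith
  · have h4 : (2 * n : ℤ) * (k + l) = 2 * n * (3 * n - 7) := by linarith
    have h5 : (k + l : ℤ) = 3 * n - 7 := mul_left_cancel₀ (by positivity) h4
    omega

lemma rot_A_B (hn : 0 < n) : RotBy 1 (matA n) (matB n) := by
  intro i
  apply Fin.ext
  have hi := i.2
  simp only [sh, matA, matB]
  rcases Nat.lt_or_ge ((i : ℕ) + 1) (2 * n) with h | h
  · rw [Nat.mod_eq_of_lt h]
    rcases Nat.mod_two_eq_zero_or_one (i : ℕ) with h1 | h1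
    · rw [if_pos (by omega), if_pos h1]
      by_cases h2 : (i : ℕ) + 1 + 1 = 2 * n
      · rw [if_pos h2, h2, Nat.mod_self]
      · rw [if_neg h2, Nat.mod_eq_of_lt (by omega)]
    · rw [if_neg (by omega), if_neg (by omega), if_neg (by omega), Nat.mod_eq_of_lt (by omega)]
      omega
  · have h2 : (i : ℕ) + 1 = 2 * n := by omega
    rw [h2, Nat.mod_self, if_neg (by omega), if_pos rfl, if_neg (by omega),
      Nat.mod_eq_of_lt (by omega)]
    omega

lemma rot_comp {s t : ℕ} {M M1 M2 : Matching n} (h1 : RotBy s M M1) (h2 : RotBy t M1 M2) :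
    RotBy (s + t) M M2 := by
  intro i
  rw [← sh_sh, ← sh_sh, h2, h1]

lemma rot_zero (M : Matching n) : RotBy 0 M M := by
  intro i
  have h : ∀ j : Fin (2 * n), sh n 0 j = j := fun j => by
    apply Fin.ext
    simp only [sh]
    rw [add_zero, Nat.mod_eq_of_lt j.2]
  rw [h, h]

lemma rot_AB (hn : 0 < n) (s : ℕ) :
    (s % 2 = 0 → RotBy s (matA n) (matA n) ∧ RotBy s (matB n) (matB n)) ∧
    (s % 2 = 1 → RotBy s (matA n) (matB n) ∧ RotBy s (matB n) (matA n)) := by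
  induction s with
  | zero => exact ⟨fun _ => ⟨rot_zero _, rot_zero _⟩, fun h => by omega⟩
  | succ s ih =>
    constructor
    · intro h
      obtain ⟨h1, h2⟩ := ih.2 (by omega)
      exact ⟨rot_comp h1 (rot_B_A hn), rot_comp h2 (rot_A_B hn)⟩
    · intro h
      obtain ⟨h1, h2⟩ := ih.1 (by omega)
      exact ⟨rot_comp h1 (rot_A_B hn), rot_comp h2 (rot_B_A hn)⟩

lemma Ex_rot (hC : S_CEN) (hR : S_ROT) (hn : Odd n) {s : ℕ} {M M1 : Matching n}
    (h : RotBy s M M1) (h1 : Ex M1) : Ex M := by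
  obtain ⟨k, l, e1, e2, e3, e4, e5⟩ := h1
  have hp := (hR n s hn).2.2 M M1 h
  rcases Nat.mod_two_eq_zero_or_one s with hs | hs
  · obtain ⟨r1, r2⟩ := (rot_AB hn.pos s).1 hs
    have hp1 : Pot M1 = Pot M := by
      rw [hp, Even.neg_one_pow (Nat.even_iff.2 hs), one_mul]
    rw [edist_rot hC hR hn h r1] at e1
    rw [edist_rot hC hR hn h r2] at e2
    rw [hp1] at e4 e5
    exact ⟨k, l, e1, e2, e3, e4, e5⟩
  · obtain ⟨r1, r2⟩ := (rot_AB hn.pos s).2 hs
    have hp1 : Pot M1 = -Pot M := by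
      rw [hp, Odd.neg_one_pow (Nat.odd_iff.2 hs), neg_one_mul]
    rw [edist_rot hC hR hn h r2] at e1
    rw [edist_rot hC hR hn h r1] at e2
    rw [hp1] at e4 e5
    exact ⟨l, k, e2, e1, by omega, by linarith, by linarith⟩

lemma Ex_near (hC : S_CEN) (hR : S_ROT) (hI : S_IND) (hNR : S_NRM) (hCl : S_CLO) (hK : S_KST)
    (hNB : S_NB) (hn : Odd n) (h3 : 3 ≤ n) (M : Matching n) (hM : Near M) : Ex M := by
  by_cases hD : Dm M
  · exact dist_AB hC hR hI hn h3 M hD
  obtain ⟨M', hM1, hM2⟩ := hM.resolve_left hD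
  obtain ⟨s, hs⟩ := hNR n hn M hD
  obtain ⟨N, hN⟩ := (hR n s hn).1 M
  obtain ⟨N', hN'⟩ := (hR n s hn).1 M'
  refine Ex_rot hC hR hn hN ?_
  have hNrm := hs N hN
  have hCF := (hR n s hn).2.1 M N M' N' hN hN' hM1
  have hDm := Dm_rot hN' hM2
  obtain ⟨hpair, hpot⟩ := hNB n hn h3 N N' hNrm hCF hDm
  obtain ⟨k', l', _, f2, _, _, f5⟩ := dist_AB hC hR hI hn h3 N' hDm
  have hB : (H n).edist N (matB n) ≤ ((1 + l' : ℕ) : ℕ∞) := by
    calc (H n).edist N (matB n) ≤ (H n).edist N N' + (H n).edist N' (matB n) :=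
          SimpleGraph.edist_triangle
      _ ≤ 1 + (l' : ℕ∞) := add_le_add (edist_CF hC hCF) f2.le
      _ = _ := by push_cast; rfl
  by_cases hA : N = matA n
  · refine mk_Ex hn h3 (k := 0) (l := 1 + l') ?_ hB ?_ ?_
    · rw [hA, SimpleGraph.edist_self]; simp
    · rw [hA, pot_A h3]; push_cast; ring
    · push_cast; linarith
  · obtain ⟨x, y, hx, hy, hxy, hxy2⟩ := hCl n hn h3 N hNrm hpair hA
    obtain ⟨M2, M3, g1, g2, g3, g4⟩ := hK n hn h3 N hNrm x y hx hy hxy hxy2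
    obtain ⟨k, l, e1, e2, _, e4, e5⟩ := dist_AB hC hR hI hn h3 M3 g3
    refine mk_Ex hn h3 (k := 2 + k) (l := 1 + l') ?_ hB ?_ ?_
    · calc (H n).edist N (matA n) ≤ (H n).edist N M2 + (H n).edist M2 (matA n) :=
            SimpleGraph.edist_triangle
        _ ≤ (H n).edist N M2 + ((H n).edist M2 M3 + (H n).edist M3 (matA n)) := by
            gcongr
            exact SimpleGraph.edist_triangle
        _ ≤ 1 + (1 + (k : ℕ∞)) :=
            add_le_add (edist_CF hC g1) (add_le_add (edist_CF hC g2) e1.le)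
        _ = _ := by push_cast; rw [← add_assoc]; norm_num
    · push_cast; linarith
    · push_cast; linarith

lemma dist_Ex {M M' : Matching n} (u1 : Ex M) (u2 : Ex M') :
    (H n).edist M M' ≤ ((3 * n - 7 : ℕ) : ℕ∞) := by
  obtain ⟨k, l, h1, h2, h3', _, _⟩ := u1
  obtain ⟨k', l', g1, g2, g3, _, _⟩ := u2
  rcases le_total (k + k') (3 * n - 7) with h | h
  · calc (H n).edist M M' ≤ (H n).edist M (matA n) + (H n).edist (matA n) M' :=
        SimpleGraph.edist_triangle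
      _ = ((k + k' : ℕ) : ℕ∞) := by
        rw [SimpleGraph.edist_comm (u := matA n), h1, g1]; push_cast; rfl
      _ ≤ _ := by exact_mod_cast h
  · calc (H n).edist M M' ≤ (H n).edist M (matB n) + (H n).edist (matB n) M' :=
        SimpleGraph.edist_triangle
      _ = ((l + l' : ℕ) : ℕ∞) := by
        rw [SimpleGraph.edist_comm (u := matB n), h2, g2]; push_cast; rfl
      _ ≤ _ := by exact_mod_cast (by omega : l + l' ≤ 3 * n - 7)

lemma dist_all3 (hE : ∀ M : Matching n, Near M → Ex M) (hU : S_UU3) (hn : Odd n) (h3 : 3 ≤ n)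
    (M M' : Matching n) : (H n).edist M M' ≤ ((3 * n - 7 + 2 * ((n - 3) / 6) : ℕ) : ℕ∞) := by
  obtain ⟨D, hD, h1⟩ := hU n hn h3 M
  obtain ⟨D', hD', h2⟩ := hU n hn h3 M'
  have h4 := dist_Ex (hE D hD) (hE D' hD')
  calc (H n).edist M M' ≤ (H n).edist M D + (H n).edist D M' := SimpleGraph.edist_triangle
    _ ≤ (H n).edist M D + ((H n).edist D D' + (H n).edist D' M') := by
      gcongr
      exact SimpleGraph.edist_triangle
    _ ≤ (((n - 3) / 6 : ℕ) : ℕ∞) + (((3 * n - 7 : ℕ) : ℕ∞) + (((n - 3) / 6 : ℕ) : ℕ∞)) := by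
      rw [SimpleGraph.edist_comm (u := D')]
      gcongr
    _ = (((n - 3) / 6 + (3 * n - 7 + (n - 3) / 6) : ℕ) : ℕ∞) := by push_cast; rfl
    _ ≤ _ := by
      exact_mod_cast (by omega : (n - 3) / 6 + (3 * n - 7 + (n - 3) / 6) ≤
        3 * n - 7 + 2 * ((n - 3) / 6))

end Pool.Agent.E8helper36.CF
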