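import Pool.Agent.E8helper36.CF.Asm2

/-! # Project CF36: assembly, part 3 -/

set_option autoImplicit false

namespace Pool.Agent.E8helper36.CF

variable {n : ℕ}

/-- `M` contains a diameter or is adjacent in `H n` to a matching that contains a diameter -/
def NearDiam (M : Matching n) : Prop := Dm M ∨ ∃ M' : Matching n, (H n).Adj M M' ∧ Dm M'

lemma near_of_nearDiam (hn : 0 < n) {M : Matching n} (h : NearDiam M) : Near M := by
  rcases h with h | ⟨M', h1, h2⟩
  · exact Or.inl h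
  · exact Or.inr ⟨M', CF_of_adj hn h1, h2⟩

lemma nearDiam_of_near (hC : S_CEN) {M : Matching n} (h : Near M) : NearDiam M := by
  rcases h with h | ⟨M', h1, h2⟩
  · exact Or.inl h
  · rcases eq_or_ne M M' with rfl | hne
    · exact Or.inl h2
    · obtain ⟨a, b, c, d, g1, g2, g3, g4, g5, g6, g7, g8⟩ := h1
      exact Or.inr ⟨M', ⟨hne, a, b, c, d, g1, g2, g3, hC n a b c d g1 g2 g3 d.2 g4 g5 g6 g7, g8⟩, h2⟩

lemma finM : Finite (Matching n) := by
  have hinj : Function.Injective (fun M : Matching n => M.m) := by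
    intro M M' h
    cases M; cases M'
    simp only at h
    subst h
    rfl
  exact Finite.of_injective _ hinj

lemma near_A (hF : S_FL1) (hn : Odd n) (h3 : 3 ≤ n) : Near (matA n) := by
  obtain ⟨k, hk⟩ := hn
  have hA : ∀ i j : Fin (2 * n), (i : ℕ) % 2 = 0 → (j : ℕ) = i + 1 → (matA n).m i = j := by
    intro i j h1 h2
    apply Fin.ext
    simp only [matA]
    rw [if_pos h1, h2]
  obtain ⟨M', hM'⟩ := hF n (matA n) ⟨0, by omega⟩ ⟨1, by omega⟩ ⟨n - 1, by omega⟩ ⟨n, by omega⟩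
    (Fin.mk_lt_mk.2 (by omega)) (Fin.mk_lt_mk.2 (by omega)) (Fin.mk_lt_mk.2 (by omega))
    (hA _ _ rfl rfl) (hA _ _ (by simp only; omega) (by simp only; omega)) (by
      intro i h1 h2
      have h1' : 1 < (i : ℕ) := h1
      have h2' : (i : ℕ) < n - 1 := h2
      simp only [Fin.lt_def, matA]
      split_ifs <;> omega)
  refine Or.inr ⟨M', ⟨⟨0, by omega⟩, ⟨1, by omega⟩, ⟨n - 1, by omega⟩, ⟨n, by omega⟩,
    Fin.mk_lt_mk.2 (by omega), Fin.mk_lt_mk.2 (by omega), Fin.mk_lt_mk.2 (by omega), ?_, ?_, ?_, ?_,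
    Or.inl hM'⟩, ⟨0, by omega⟩, ?_⟩
  · simp only; omega
  · simp only; omega
  · simp only; omega
  · simp only; omega
  · rw [hM'.ad]; simp

theorem main (hC : S_CEN) (hF : S_FL1) (hE : ∀ M : Matching n, Near M → Ex M) (hU : S_UU3) (hn : Odd n)
    (h3 : 3 ≤ n) :
    (∃ Φ : Matching n → ℤ,
      (∀ M M', (H n).Adj M M' → Φ M' = Φ M + 2 * n ∨ Φ M' = Φ M - 2 * n) ∧
      Φ (matA n) = n * (3 * n - 7) ∧ Φ (matB n) = n * (7 - 3 * n) ∧
      (∀ M M', |Φ M' - Φ M| ≤ 2 * n * (H n).dist M M') ∧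
      ∀ M, NearDiam M → (2 * n * (H n).dist M (matA n) : ℤ) = Φ (matA n) - Φ M ∧
        (2 * n * (H n).dist M (matB n) : ℤ) = Φ M - Φ (matB n)) ∧
    (H n).Connected ∧ (H n).Colorable 2 ∧
    (H n).dist (matA n) (matB n) = 3 * n - 7 ∧
    (∀ M M', NearDiam M → NearDiam M' → (H n).dist M M' ≤ 3 * n - 7) ∧
    (∀ M, ∃ M', NearDiam M' ∧ (H n).dist M M' ≤ (n - 3) / 6) ∧
    3 * n - 7 ≤ (H n).diam ∧ (H n).diam ≤ 3 * n - 7 + 2 * ((n - 3) / 6) := by
  have : Finite (Matching n) := finM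
  have : Nonempty (Matching n) := ⟨matA n⟩
  have hall := dist_all3 hE hU hn h3
  have hed : (H n).ediam ≤ ((3 * n - 7 + 2 * ((n - 3) / 6) : ℕ) : ℕ∞) :=
    SimpleGraph.ediam_le_of_edist_le hall
  have hne : (H n).ediam ≠ ⊤ := ne_top_of_le_ne_top (ENat.natCast_ne_top _) hed
  have hconn : (H n).Connected := SimpleGraph.connected_of_ediam_ne_top hne
  have hdist : ∀ M M' : Matching n, (((H n).dist M M' : ℕ) : ℕ∞) = (H n).edist M M' := fun M M' =>
    ENat.natCast_toNat ((ne_top_of_le_ne_top (ENat.natCast_ne_top _) (hall M M')))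
  have hle : ∀ (M M' : Matching n) (k : ℕ), (H n).edist M M' ≤ k → (H n).dist M M' ≤ k := by
    intro M M' k h
    rw [← hdist] at h
    exact_mod_cast h
  have heq : ∀ (M M' : Matching n) (k : ℕ), (H n).edist M M' = k → (H n).dist M M' = k := by
    intro M M' k h
    rw [← hdist] at h
    exact_mod_cast h
  have hA : NearDiam (matA n) := nearDiam_of_near hC (near_A hF hn h3)
  have hAB : (H n).dist (matA n) (matB n) = 3 * n - 7 := by
    obtain ⟨k, l, e1, e2, e3, _, _⟩ := hE (matA n) (near_of_nearDiam hn.pos hA)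
    rw [SimpleGraph.edist_self] at e1
    have hk : k = 0 := by exact_mod_cast e1.symm
    rw [heq _ _ _ e2]
    omega
  refine ⟨⟨Pot, fun M M' h => adj_step hn h, pot_A h3, pot_B h3, ?_, ?_⟩, hconn, two_col hn, hAB,
    ?_, ?_, ?_, ?_⟩
  · intro M M'
    obtain ⟨w, hw⟩ := hconn.exists_walk_length_eq_dist M M'
    rw [← hw]
    exact walk_le hn w
  · intro M hM
    obtain ⟨k, l, e1, e2, e3, e4, e5⟩ := hE M (near_of_nearDiam hn.pos hM)
    rw [heq _ _ _ e1, heq _ _ _ e2, pot_A h3, pot_B h3, e4, e5]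
    constructor <;> ring
  · intro M M' h1 h2
    exact hle _ _ _ (dist_Ex (hE M (near_of_nearDiam hn.pos h1)) (hE M' (near_of_nearDiam hn.pos h2)))
  · intro M
    obtain ⟨M', h1, h2⟩ := hU n hn h3 M
    exact ⟨M', nearDiam_of_near hC h1, hle _ _ _ h2⟩
  · rw [← hAB]
    exact SimpleGraph.dist_le_diam hne
  · unfold SimpleGraph.diam
    exact ENat.toNat_le_of_le_natCast hed

end Pool.Agent.E8helper36.CF
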