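import Mathlib

/-!
# The diameter of the centered-flip graph of non-crossing matchings is at least `3 n - 7`

A weight of the matchings, `∑ ± (3 n - 7 f)` over the edges of arc `f < n`, changes by exactly `2 n` in
every centered flip.
-/

set_option autoImplicit false

namespace Pool.Agent.E8helper36.CF

open Finset

/-- The `2 n` points: `P n k = exp (π i k / n)`, `k = 0, ..., 2 n - 1`, equally spaced on the unit
circle. -/
noncomputable def P (n : ℕ) (k : ℤ) : ℂ := Complex.exp ((Real.pi * k / n : ℝ) * Complex.I)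

/-- The non-crossing perfect matchings of the `2 n` points: `m i` is the partner of the point `i`. -/
structure Matching (n : ℕ) where
  m : Fin (2 * n) → Fin (2 * n)
  inv : ∀ i, m (m i) = i
  ne : ∀ i, m i ≠ i
  nc : ∀ a b, a < b → b < m a → ¬ m a < m b

variable {n : ℕ}

/-- `M'` is obtained from `M` by replacing the edges `a b`, `c d`, `a < b < c < d`, by the other two
sides `b c`, `a d` of the quadrilateral. -/
structure Rep (M M' : Matching n) (a b c d : Fin (2 * n)) : Prop where
  ab : M.m a = b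
  cd : M.m c = d
  bc : M'.m b = c
  ad : M'.m a = d
  rest : ∀ i, i ≠ a → i ≠ b → i ≠ c → i ≠ d → M'.m i = M.m i

/-- `M` and `M'` differ by a centered flip: the quadrilateral contains the center of the circle. -/
def CFlip (M M' : Matching n) : Prop :=
  ∃ a b c d : Fin (2 * n), a < b ∧ b < c ∧ c < d ∧
    (0 : ℂ) ∈ convexHull ℝ {P n (a : ℕ), P n (b : ℕ), P n (c : ℕ), P n (d : ℕ)} ∧
    (Rep M M' a b c d ∨ Rep M' M a b c d)

/-- The centered-flip graph. -/
def H (n : ℕ) : SimpleGraph (Matching n) where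
  Adj M M' := M ≠ M' ∧ CFlip M M'
  symm := ⟨fun M M' h => ⟨h.1.symm, by
    obtain ⟨a, b, c, d, h1, h2, h3, h4, h5⟩ := h.2
    exact ⟨a, b, c, d, h1, h2, h3, h4, h5.symm⟩⟩⟩
  loopless := ⟨fun M h => h.1 rfl⟩

/-! ### the center -/

lemma P_add (hn : 0 < n) (k : ℤ) : P n (k + 2 * n) = P n k := by
  unfold P
  have h1 : ((Real.pi * ((k + 2 * n : ℤ) : ℝ) / n : ℝ) : ℂ) * Complex.I =
      ((Real.pi * k / n : ℝ) : ℂ) * Complex.I + 2 * Real.pi * Complex.I := by
    have : (n : ℂ) ≠ 0 := by exact_mod_cast hn.ne'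
    push_cast
    field_simp
  rw [h1, Complex.exp_add, Complex.exp_two_pi_mul_I, mul_one]

lemma not_center (hn : 0 < n) {S : Set ℂ} {L R : ℤ} (hLR : R - L < n)
    (hS : ∀ z ∈ S, ∃ k : ℤ, z = P n k ∧ L ≤ k ∧ k ≤ R) : (0 : ℂ) ∉ convexHull ℝ S := by
  intro h0
  set θ : ℝ := Real.pi * ((L : ℝ) + R) / (2 * n) with hθ
  set C : Set ℂ := {z | 0 < (z * Complex.exp (((-θ : ℝ) : ℂ) * Complex.I)).re} with hC
  have hconv : Convex ℝ C := by
    intro x hx y hy a b ha hb hab
    simp only [hC, Set.mem_ofPred_eq] at hx hy ⊢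
    have : ((a • x + b • y) * Complex.exp (((-θ : ℝ) : ℂ) * Complex.I)).re =
        a * (x * Complex.exp (((-θ : ℝ) : ℂ) * Complex.I)).re +
        b * (y * Complex.exp (((-θ : ℝ) : ℂ) * Complex.I)).re := by
      rw [add_mul, Complex.add_re, smul_mul_assoc, smul_mul_assoc, Complex.smul_re,
        Complex.smul_re, smul_eq_mul, smul_eq_mul]
    rw [this]
    rcases eq_or_lt_of_le ha with h | h
    · have hb1 : b = 1 := by linarith
      rw [← h, hb1]; linarith
    · have h2 := mul_pos h hx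
      have h3 := mul_nonneg hb hy.le
      linarith
  have hsub : S ⊆ C := by
    intro z hz
    obtain ⟨k, rfl, hL, hR⟩ := hS z hz
    simp only [hC, Set.mem_ofPred_eq, P]
    rw [← Complex.exp_add, ← add_mul, ← Complex.ofReal_add, Complex.exp_ofReal_mul_I_re]
    apply Real.cos_pos_of_mem_Ioo
    have hn' : (0 : ℝ) < n := by exact_mod_cast hn
    have hL' : (L : ℝ) ≤ k := by exact_mod_cast hL
    have hR' : (k : ℝ) ≤ R := by exact_mod_cast hR
    have hLR' : (R : ℝ) - L < n := by exact_mod_cast hLR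
    have e : Real.pi * k / n + -θ = Real.pi / 2 * ((2 * k - L - R) / n) := by
      rw [hθ]; field_simp; ring
    rw [e]
    have h1 : -1 < (2 * (k : ℝ) - L - R) / n := by
      rw [lt_div_iff₀ hn']; linarith
    have h2 : (2 * (k : ℝ) - L - R) / n < 1 := by
      rw [div_lt_iff₀ hn']; linarith
    have hp : 0 < Real.pi / 2 := by positivity
    constructor
    · nlinarith
    · nlinarith
  have h1 := convexHull_min hsub hconv h0
  simp [hC] at h1

lemma arcs (hn : 0 < n) {a b c d : ℕ} (hab : a < b) (hbc : b < c) (hcd : c < d) (hd : d < 2 * n)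
    (h : (0 : ℂ) ∈ convexHull ℝ {P n a, P n b, P n c, P n d}) :
    b ≤ a + n ∧ c ≤ b + n ∧ d ≤ c + n ∧ a + n ≤ d := by
  refine ⟨?_, ?_, ?_, ?_⟩
  · by_contra hc
    refine not_center hn (L := b) (R := a + 2 * n) (by omega) ?_ h
    rintro z (rfl | rfl | rfl | rfl)
    · exact ⟨a + 2 * n, (P_add hn _).symm, by omega, by omega⟩
    · exact ⟨b, rfl, by omega, by omega⟩
    · exact ⟨c, rfl, by omega, by omega⟩
    · exact ⟨d, rfl, by omega, by omega⟩
  · by_contra hc
    refine not_center hn (L := c) (R := b + 2 * n) (by omega) ?_ h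
    rintro z (rfl | rfl | rfl | rfl)
    · exact ⟨a + 2 * n, (P_add hn _).symm, by omega, by omega⟩
    · exact ⟨b + 2 * n, (P_add hn _).symm, by omega, by omega⟩
    · exact ⟨c, rfl, by omega, by omega⟩
    · exact ⟨d, rfl, by omega, by omega⟩
  · by_contra hc
    refine not_center hn (L := d) (R := c + 2 * n) (by omega) ?_ h
    rintro z (rfl | rfl | rfl | rfl)
    · exact ⟨a + 2 * n, (P_add hn _).symm, by omega, by omega⟩
    · exact ⟨b + 2 * n, (P_add hn _).symm, by omega, by omega⟩
    · exact ⟨c + 2 * n, (P_add hn _).symm, by omega, by omega⟩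
    · exact ⟨d, rfl, by omega, by omega⟩
  · by_contra hc
    refine not_center hn (L := a) (R := d) (by omega) ?_ h
    rintro z (rfl | rfl | rfl | rfl)
    · exact ⟨a, rfl, by omega, by omega⟩
    · exact ⟨b, rfl, by omega, by omega⟩
    · exact ⟨c, rfl, by omega, by omega⟩
    · exact ⟨d, rfl, by omega, by omega⟩

/-! ### parity -/

lemma parity (M : Matching n) {a b : Fin (2 * n)} (hab : a < b) (h : M.m a = b) :
    (b : ℕ) % 2 = ((a : ℕ) + 1) % 2 := by
  have hba : M.m b = a := by rw [← h, M.inv]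
  have hmem : ∀ x ∈ Finset.Ioo a b, M.m x ∈ Finset.Ioo a b := by
    intro x hx
    rw [Finset.mem_Ioo] at hx ⊢
    have h1 : ¬ M.m a < M.m x := M.nc a x hx.1 (by rw [h]; exact hx.2)
    rw [h, not_lt] at h1
    have h2 : M.m x ≠ b := by
      intro h3
      have : x = a := by rw [← M.inv x, h3, hba]
      exact absurd this (ne_of_gt hx.1)
    have h3 : M.m x ≠ a := by
      intro h3
      have : x = b := by rw [← M.inv x, h3, h]
      exact absurd this (ne_of_lt hx.2)
    refine ⟨?_, lt_of_le_of_ne h1 h2⟩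
    rcases lt_trichotomy (M.m x) a with h4 | h4 | h4
    · exfalso
      have h5 := M.nc (M.m x) a h4 (by rw [M.inv]; exact hx.1)
      rw [M.inv, h] at h5
      exact h5 hx.2
    · exact absurd h4 h3
    · exact h4
  have hsum : ∑ _x ∈ Finset.Ioo a b, (1 : ZMod 2) = 0 := by
    refine Finset.sum_involution (fun x _ => M.m x) (fun x _ => by decide) (fun x _ _ => M.ne x)
      (fun x hx => hmem x hx) (fun x _ => M.inv x)
  rw [Finset.sum_const, nsmul_eq_mul, mul_one, ZMod.natCast_eq_zero_iff, Fin.card_Ioo] at hsum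
  have : (a : ℕ) < b := hab
  omega

/-! ### the weight -/

/-- the number of steps from the point `x` forward to its partner -/
def fwd (M : Matching n) (x : Fin (2 * n)) : ℤ :=
  if x < M.m x then ((M.m x : ℕ) : ℤ) - (x : ℕ) else 2 * n + ((M.m x : ℕ) : ℤ) - (x : ℕ)

/-- the weight of the edge that starts in `x`; it is zero if the edge is a diameter or if the short
arc of the edge starts in the other end -/
def wt (M : Matching n) (x : Fin (2 * n)) : ℤ :=
  if fwd M x < n then (if (x : ℕ) % 2 = 0 then 3 * n - 7 * fwd M x else 7 * fwd M x - 3 * n) else 0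

/-- the weight of a matching -/
def Pot (M : Matching n) : ℤ := ∑ x, wt M x

lemma wt_congr {M M' : Matching n} {x : Fin (2 * n)} (h : M'.m x = M.m x) : wt M' x = wt M x := by
  unfold wt fwd
  rw [h]

lemma wt_fst {M : Matching n} {a b : Fin (2 * n)} (hab : a < b) (h : M.m a = b) :
    wt M a = if ((b : ℕ) : ℤ) - (a : ℕ) < n then
      (if (a : ℕ) % 2 = 0 then 3 * n - 7 * (((b : ℕ) : ℤ) - (a : ℕ)) else
        7 * (((b : ℕ) : ℤ) - (a : ℕ)) - 3 * n) else 0 := by
  unfold wt fwd
  rw [h, if_pos hab]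

lemma wt_snd {M : Matching n} {a b : Fin (2 * n)} (hab : a < b) (h : M.m a = b) :
    wt M b = if 2 * n + ((a : ℕ) : ℤ) - (b : ℕ) < n then
      (if (b : ℕ) % 2 = 0 then 3 * n - 7 * (2 * n + ((a : ℕ) : ℤ) - (b : ℕ)) else
        7 * (2 * n + ((a : ℕ) : ℤ) - (b : ℕ)) - 3 * n) else 0 := by
  have hba : M.m b = a := by rw [← h, M.inv]
  unfold wt fwd
  rw [hba, if_neg (not_lt.2 hab.le)]

lemma step (hn : Odd n) {M M' : Matching n} {a b c d : Fin (2 * n)} (hab : a < b) (hbc : b < c)
    (hcd : c < d)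
    (h0 : (0 : ℂ) ∈ convexHull ℝ {P n (a : ℕ), P n (b : ℕ), P n (c : ℕ), P n (d : ℕ)})
    (h : Rep M M' a b c d) : Pot M' = Pot M + 2 * n ∨ Pot M' = Pot M - 2 * n := by
  have hpos : 0 < n := hn.pos
  obtain ⟨h1, h2, h3, h4⟩ := arcs hpos (a := a) (b := b) (c := c) (d := d) hab hbc hcd d.2 h0
  have had : a < d := hab.trans (hbc.trans hcd)
  have p1 := parity M hab h.ab
  have p2 := parity M hcd h.cd
  have p3 := parity M' hbc h.bc
  have p4 := parity M' had h.ad
  have e : Pot M' - Pot M = (wt M' a - wt M a) + ((wt M' b - wt M b) + ((wt M' c - wt M c) +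
      (wt M' d - wt M d))) := by
    unfold Pot
    rw [← Finset.sum_sub_distrib]
    rw [← Finset.sum_subset (Finset.subset_univ {a, b, c, d})]
    · rw [Finset.sum_insert, Finset.sum_insert, Finset.sum_insert, Finset.sum_singleton]
      · simp [hcd.ne]
      · simp [hbc.ne, (hbc.trans hcd).ne]
      · simp [hab.ne, (hab.trans hbc).ne, had.ne]
    · intro x _ hx
      simp only [Finset.mem_insert, Finset.mem_singleton, not_or] at hx
      rw [wt_congr (h.rest x hx.1 hx.2.1 hx.2.2.1 hx.2.2.2), sub_self]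
  rw [wt_fst hab h.ab, wt_snd hab h.ab, wt_fst hcd h.cd, wt_snd hcd h.cd, wt_fst hbc h.bc,
    wt_snd hbc h.bc, wt_fst had h.ad, wt_snd had h.ad] at e
  obtain ⟨k, hk⟩ := hn
  have hab' : (a : ℕ) < b := hab
  have hbc' : (b : ℕ) < c := hbc
  have hcd' : (c : ℕ) < d := hcd
  have hd' := d.2
  rw [if_neg (by omega : ¬ (2 * n + ((a : ℕ) : ℤ) - (b : ℕ) < n)),
    if_neg (by omega : ¬ (2 * n + ((c : ℕ) : ℤ) - (d : ℕ) < n)),
    if_neg (by omega : ¬ (2 * n + ((b : ℕ) : ℤ) - (c : ℕ) < n)),
    if_neg (by omega : ¬ (((d : ℕ) : ℤ) - (a : ℕ) < n))] at e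
  rcases Nat.mod_two_eq_zero_or_one (a : ℕ) with hpar | hpar
  · rw [if_pos hpar, if_neg (by omega : ¬ (b : ℕ) % 2 = 0), if_pos (by omega : (c : ℕ) % 2 = 0),
      if_neg (by omega : ¬ (d : ℕ) % 2 = 0)] at e
    split_ifs at e <;> omega
  · rw [if_neg (by omega : ¬ (a : ℕ) % 2 = 0), if_pos (by omega : (b : ℕ) % 2 = 0),
      if_neg (by omega : ¬ (c : ℕ) % 2 = 0), if_pos (by omega : (d : ℕ) % 2 = 0)] at e
    split_ifs at e <;> omega

lemma adj_step (hn : Odd n) {M M' : Matching n} (h : (H n).Adj M M') :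
    Pot M' = Pot M + 2 * n ∨ Pot M' = Pot M - 2 * n := by
  obtain ⟨-, a, b, c, d, h1, h2, h3, h4, h5 | h5⟩ := h
  · exact step hn h1 h2 h3 h4 h5
  · rcases step hn h1 h2 h3 h4 h5 with h6 | h6
    · right; omega
    · left; omega

lemma walk_le (hn : Odd n) {M M' : Matching n} (w : (H n).Walk M M') :
    |Pot M' - Pot M| ≤ 2 * n * w.length := by
  induction w with
  | nil => simp
  | cons h w ih =>
    rw [SimpleGraph.Walk.length_cons]
    push_cast
    rw [abs_le] at ih ⊢
    have hn0 : (0 : ℤ) ≤ n := by positivity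
    rcases adj_step hn h with h1 | h1
    · constructor <;> nlinarith [ih.1, ih.2]
    · constructor <;> nlinarith [ih.1, ih.2]

/-! ### the two matchings all of whose edges have length `0` -/

/-- the edges `{0, 1}, {2, 3}, ...` -/
def matA (n : ℕ) : Matching n where
  m x := ⟨if (x : ℕ) % 2 = 0 then x + 1 else x - 1, by split_ifs <;> omega⟩
  inv x := by
    apply Fin.ext
    simp only
    split_ifs <;> omega
  ne x h := by
    have := congrArg Fin.val h
    simp only at this
    split_ifs at this <;> omega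
  nc a b h1 h2 h3 := by
    have k1 : (a : ℕ) < b := h1
    have k2 : (b : ℕ) < (if (a : ℕ) % 2 = 0 then (a : ℕ) + 1 else a - 1) := h2
    split_ifs at k2 <;> omega

/-- the edges `{1, 2}, {3, 4}, ..., {2 n - 1, 0}` -/
def matB (n : ℕ) : Matching n where
  m x := ⟨if (x : ℕ) % 2 = 1 then (if (x : ℕ) + 1 = 2 * n then 0 else x + 1) else
    (if (x : ℕ) = 0 then 2 * n - 1 else x - 1), by split_ifs <;> omega⟩
  inv x := by
    have hx := x.2
    apply Fin.ext
    simp only
    rcases Nat.mod_two_eq_zero_or_one (x : ℕ) with h | h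
    · rcases Nat.eq_zero_or_pos (x : ℕ) with h' | h'
      · have e1 : (if (x : ℕ) % 2 = 1 then (if (x : ℕ) + 1 = 2 * n then 0 else (x : ℕ) + 1) else
          (if (x : ℕ) = 0 then 2 * n - 1 else (x : ℕ) - 1)) = 2 * n - 1 := by
          rw [if_neg (by omega), if_pos h']
        rw [e1, if_pos (by omega), if_pos (by omega), h']
      · have e1 : (if (x : ℕ) % 2 = 1 then (if (x : ℕ) + 1 = 2 * n then 0 else (x : ℕ) + 1) else
          (if (x : ℕ) = 0 then 2 * n - 1 else (x : ℕ) - 1)) = x - 1 := by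
          rw [if_neg (by omega), if_neg (by omega)]
        rw [e1, if_pos (by omega), if_neg (by omega)]
        omega
    · by_cases h' : (x : ℕ) + 1 = 2 * n
      · have e1 : (if (x : ℕ) % 2 = 1 then (if (x : ℕ) + 1 = 2 * n then 0 else (x : ℕ) + 1) else
          (if (x : ℕ) = 0 then 2 * n - 1 else (x : ℕ) - 1)) = 0 := by
          rw [if_pos h, if_pos h']
        rw [e1, if_neg (by omega), if_pos rfl]
        omega
      · have e1 : (if (x : ℕ) % 2 = 1 then (if (x : ℕ) + 1 = 2 * n then 0 else (x : ℕ) + 1) else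
          (if (x : ℕ) = 0 then 2 * n - 1 else (x : ℕ) - 1)) = x + 1 := by
          rw [if_pos h, if_neg h']
        rw [e1, if_neg (by omega), if_neg (by omega)]
        omega
  ne x h := by
    have := congrArg Fin.val h
    simp only at this
    split_ifs at this <;> omega
  nc a b h1 h2 h3 := by
    have k1 : (a : ℕ) < b := h1
    have k2 : (b : ℕ) < (if (a : ℕ) % 2 = 1 then (if (a : ℕ) + 1 = 2 * n then 0 else (a : ℕ) + 1)
      else (if (a : ℕ) = 0 then 2 * n - 1 else a - 1)) := h2
    have k3 : (if (a : ℕ) % 2 = 1 then (if (a : ℕ) + 1 = 2 * n then 0 else (a : ℕ) + 1)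
      else (if (a : ℕ) = 0 then 2 * n - 1 else a - 1)) <
      (if (b : ℕ) % 2 = 1 then (if (b : ℕ) + 1 = 2 * n then 0 else (b : ℕ) + 1)
      else (if (b : ℕ) = 0 then 2 * n - 1 else b - 1)) := h3
    split_ifs at k2 k3 <;> omega

lemma sum_even (c : ℤ) (n : ℕ) : ∑ x ∈ range (2 * n), (if x % 2 = 0 then c else 0) = n * c := by
  induction n with
  | zero => simp
  | succ n ih =>
    rw [show 2 * (n + 1) = 2 * n + 1 + 1 by ring, sum_range_succ, sum_range_succ, ih,
      if_pos (by omega), if_neg (by omega)]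
    push_cast
    ring

lemma sum_odd (c : ℤ) (n : ℕ) : ∑ x ∈ range (2 * n), (if x % 2 = 0 then 0 else c) = n * c := by
  induction n with
  | zero => simp
  | succ n ih =>
    rw [show 2 * (n + 1) = 2 * n + 1 + 1 by ring, sum_range_succ, sum_range_succ, ih,
      if_pos (by omega), if_neg (by omega)]
    push_cast
    ring

lemma pot_A (h3 : 3 ≤ n) : Pot (matA n) = n * (3 * n - 7) := by
  rw [← sum_even (3 * n - 7) n, ← Fin.sum_univ_eq_sum_range]
  refine Finset.sum_congr rfl fun x _ => ?_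
  have hx := x.2
  unfold wt fwd
  simp only [matA, Fin.lt_def]
  rcases Nat.mod_two_eq_zero_or_one (x : ℕ) with h | h
  · split_ifs <;> omega
  · split_ifs <;> omega

lemma pot_B (h3 : 3 ≤ n) : Pot (matB n) = n * (7 - 3 * n) := by
  rw [← sum_odd (7 - 3 * n) n, ← Fin.sum_univ_eq_sum_range]
  refine Finset.sum_congr rfl fun x _ => ?_
  have hx := x.2
  unfold wt fwd
  simp only [matB, Fin.lt_def]
  rcases Nat.mod_two_eq_zero_or_one (x : ℕ) with h | h
  · split_ifs <;> omega
  · split_ifs <;> omega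

lemma walk_AB (hn : Odd n) (h3 : 3 ≤ n) (w : (H n).Walk (matA n) (matB n)) :
    3 * n - 7 ≤ w.length := by
  have h := walk_le hn w
  rw [pot_A h3, pot_B h3, abs_le] at h
  have h1 : (2 * n : ℤ) * (3 * n - 7) ≤ 2 * n * w.length := by nlinarith [h.1]
  have h2 : (3 * n - 7 : ℤ) ≤ w.length := by
    have hpos : (0 : ℤ) < 2 * n := by positivity
    exact le_of_mul_le_mul_left h1 hpos
  omega

lemma two_col (hn : Odd n) : (H n).Colorable 2 := by
  have hpos : (0 : ℤ) < 2 * n := by
    have := hn.pos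
    positivity
  let C : (H n).Coloring Bool := SimpleGraph.Coloring.mk
    (fun M => decide ((Pot M / (2 * n)) % 2 = 0)) (by
      intro M M' h
      have h1 : Pot M' / (2 * n) = Pot M / (2 * n) + 1 ∨ Pot M' / (2 * n) = Pot M / (2 * n) - 1 := by
        rcases adj_step hn h with h2 | h2
        · left
          rw [h2, Int.add_ediv_of_dvd_right (dvd_refl _), Int.ediv_self hpos.ne']
        · right
          rw [h2, Int.sub_ediv_of_dvd _ (dvd_refl _), Int.ediv_self hpos.ne']
      intro h4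
      rw [decide_eq_decide] at h4
      omega)
  exact C.colorable

end Pool.Agent.E8helper36.CF
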