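import Pool.Agent.E8helper36.CF.Stm

/-! # Project CF36: DST -/

set_option autoImplicit false

namespace Pool.Agent.E8helper36.CF

theorem t_DST : S_FL2 → S_POT → S_DST := by
  intro hF hP n hn h3 M hM
  set o : Fin (2 * n) := ⟨0, by omega⟩ with ho
  set e : Fin (2 * n) := ⟨1, by omega⟩ with he
  set N : Fin (2 * n) := ⟨n, by omega⟩ with hN
  set p : Fin (2 * n) := M.m e with hp
  have hoN : M.m o = N := Fin.ext (hM o rfl)
  have hNo : M.m N = o := by rw [← hoN, M.inv]
  have hpe : M.m p = e := M.inv e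
  have ho0 : (o : ℕ) = 0 := rfl
  have he1 : (e : ℕ) = 1 := rfl
  have hNn : (N : ℕ) = n := rfl
  have hin : ∀ i : Fin (2 * n), 0 < (i : ℕ) → (i : ℕ) < n → (M.m i : ℕ) < n := by
    intro i h1 h2
    have h4 := M.nc o i (Fin.lt_def.2 (by omega)) (Fin.lt_def.2 (by rw [hoN]; omega))
    rw [hoN, Fin.lt_def] at h4
    have h5 : M.m i ≠ N := by
      intro h6
      have h7 : i = o := by rw [← M.inv i, h6, hNo]
      rw [h7] at h1
      omega
    have h6 : (M.m i : ℕ) ≠ (N : ℕ) := fun h => h5 (Fin.ext h)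
    omega
  have hp1 : 1 < (p : ℕ) := by
    have h4 : p ≠ o := by
      intro h5
      have h6 : e = N := by rw [← M.inv e, ← hp, h5, hoN]
      have := congrArg Fin.val h6
      omega
    have h5 : p ≠ e := M.ne e
    have h6 : (p : ℕ) ≠ (o : ℕ) := fun h => h4 (Fin.ext h)
    have h7 : (p : ℕ) ≠ (e : ℕ) := fun h => h5 (Fin.ext h)
    omega
  have hp2 : (p : ℕ) < n := hin e (by omega) (by omega)
  have l1 : o < e := Fin.lt_def.2 (by omega)
  have l2 : e < p := Fin.lt_def.2 (by omega)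
  have l3 : p < N := Fin.lt_def.2 (by omega)
  obtain ⟨M1, h1⟩ := hF n M o e p N l1 l2 l3 rfl hoN (by
    intro i h4 h5
    rw [Fin.lt_def] at h4 h5
    omega)
  have q1 : M1.m o = e := h1.ab
  have q2 : M1.m p = N := h1.cd
  have q3 : M1.m e = o := by rw [← q1, M1.inv]
  have q4 : M1.m N = p := by rw [← q2, M1.inv]
  have hsmall : ∀ i : Fin (2 * n), (i : ℕ) < n + 1 → (M1.m i : ℕ) < n + 1 := by
    intro i hi
    by_cases c1 : i = o
    · rw [c1, q1]; omega
    by_cases c2 : i = e
    · rw [c2, q3]; omega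
    by_cases c3 : i = p
    · rw [c3, q2]; omega
    by_cases c4 : i = N
    · rw [c4, q4]; omega
    have h4 := h1.rest i c1 c2 c3 c4
    rw [← h4]
    have c1' : (i : ℕ) ≠ (o : ℕ) := fun h => c1 (Fin.ext h)
    have c4' : (i : ℕ) ≠ (N : ℕ) := fun h => c4 (Fin.ext h)
    have := hin i (by omega) (by omega)
    omega
  refine ⟨M1, ⟨o, e, p, N, l1, l2, l3, by omega, by omega, by omega, by omega, Or.inr h1⟩, ?_, ?_,
    o, ⟨n + 1, by omega⟩, ?_, ?_, ?_⟩
  · intro i
    rcases Nat.lt_or_ge (i : ℕ) n with hi | hi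
    · by_cases c1 : i = o
      · rw [c1, q1]; omega
      · by_cases c3 : i = p
        · rw [c3, q2]; omega
        · have c1' : (i : ℕ) ≠ (o : ℕ) := fun h => c1 (Fin.ext h)
          have := hsmall i (by omega)
          omega
    · have := (M1.m i).2
      omega
  · have h4 := (hP n hn M1 M o e p N l1 l2 l3 (by omega) (by omega) (by omega) (by omega) h1).1
      (Or.inr (Or.inr (Or.inr (by omega))))
    rw [if_pos (by omega)] at h4
    linarith
  · intro j hj
    rw [Fin.lt_def] at hj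
    omega
  · intro j hj
    have hj' : (j : ℕ) < n + 1 := hj
    exact Fin.lt_def.2 (hsmall j hj')
  · show n + 1 = (o : ℕ) + n + 1
    omega

end Pool.Agent.E8helper36.CF
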