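import Pool.Agent.E8helper36.CF.Stm

/-! # Project CF36: distances and rotations -/

set_option autoImplicit false

namespace Pool.Agent.E8helper36.CF

variable {n : ℕ}

lemma mext {M M' : Matching n} (h : ∀ i, M.m i = M'.m i) : M = M' := by
  cases M
  cases M'
  simp only [Matching.mk.injEq]
  exact funext h

lemma CF_symm {M M' : Matching n} (h : CF M M') : CF M' M := by
  obtain ⟨a, b, c, d, h1, h2, h3, h4, h5, h6, h7, h8⟩ := h
  exact ⟨a, b, c, d, h1, h2, h3, h4, h5, h6, h7, h8.symm⟩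

lemma edist_CF (hC : S_CEN) {M M' : Matching n} (h : CF M M') : (H n).edist M M' ≤ 1 := by
  rcases eq_or_ne M M' with rfl | hne
  · rw [SimpleGraph.edist_self]; exact zero_le
  · obtain ⟨a, b, c, d, h1, h2, h3, h4, h5, h6, h7, h8⟩ := h
    have hadj : (H n).Adj M M' :=
      ⟨hne, a, b, c, d, h1, h2, h3, hC n a b c d h1 h2 h3 d.2 h4 h5 h6 h7, h8⟩
    have := SimpleGraph.edist_le hadj.toWalk
    simpa using this

lemma CF_of_adj (hn : 0 < n) {M M' : Matching n} (h : (H n).Adj M M') : CF M M' := by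
  obtain ⟨-, a, b, c, d, h1, h2, h3, h4, h5⟩ := h
  obtain ⟨g1, g2, g3, g4⟩ := arcs hn (a := a) (b := b) (c := c) (d := d) h1 h2 h3 d.2 h4
  exact ⟨a, b, c, d, h1, h2, h3, g1, g2, g3, g4, h5⟩

lemma sh_sh (s t : ℕ) (i : Fin (2 * n)) : sh n t (sh n s i) = sh n (s + t) i := by
  apply Fin.ext
  simp only [sh]
  rw [Nat.mod_add_mod, add_assoc]

lemma sh_inv {s t : ℕ} (h : (s + t) % (2 * n) = 0) (i : Fin (2 * n)) : sh n t (sh n s i) = i := by
  rw [sh_sh]
  apply Fin.ext
  simp only [sh]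
  rw [Nat.add_mod, h, add_zero, Nat.mod_mod, Nat.mod_eq_of_lt i.2]

lemma exists_inv (hn : 0 < n) (s : ℕ) : ∃ t, (s + t) % (2 * n) = 0 ∧ (t + s) % (2 * n) = 0 := by
  refine ⟨2 * n - s % (2 * n), ?_⟩
  have h1 : s % (2 * n) < 2 * n := Nat.mod_lt _ (by omega)
  have h2 : s + (2 * n - s % (2 * n)) = 2 * n + 2 * n * (s / (2 * n)) := by
    have := Nat.mod_add_div s (2 * n)
    omega
  have h3 : (s + (2 * n - s % (2 * n))) % (2 * n) = 0 := by
    rw [h2, Nat.add_mul_mod_self_left, Nat.mod_self]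
  exact ⟨h3, by rw [add_comm]; exact h3⟩

lemma rot_unique (hn : 0 < n) {s : ℕ} {M M1 M2 : Matching n} (h1 : RotBy s M M1)
    (h2 : RotBy s M M2) : M1 = M2 := by
  obtain ⟨t, -, ht⟩ := exists_inv hn s
  refine mext fun j => ?_
  rw [← sh_inv ht j, h1, h2]

lemma rot_back {s t : ℕ} (hst : (s + t) % (2 * n) = 0) {M M1 : Matching n}
    (hn : 0 < n) (h1 : RotBy s M M1) : RotBy t M1 M := by
  intro j
  have hts : (t + s) % (2 * n) = 0 := by rw [add_comm]; exact hst
  have e1 : M1.m j = sh n s (M.m (sh n t j)) := by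
    rw [← h1, sh_inv hts]
  rw [e1, sh_inv hst]

lemma edist_rot_le (hC : S_CEN) (hR : S_ROT) (hn : Odd n) {s : ℕ} {M N : Matching n}
    (w : (H n).Walk M N) : ∀ M1 N1 : Matching n, RotBy s M M1 → RotBy s N N1 →
      (H n).edist M1 N1 ≤ (w.length : ℕ∞) := by
  induction w with
  | nil =>
    intro M1 N1 h1 h2
    rw [rot_unique hn.pos h1 h2, SimpleGraph.edist_self]
    exact zero_le
  | @cons M K N h w ih =>
    intro M1 N1 h1 h2
    obtain ⟨K1, hK⟩ := (hR n s hn).1 K
    have h3 := edist_CF hC ((hR n s hn).2.1 M M1 K K1 h1 hK (CF_of_adj hn.pos h))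
    have h4 := ih K1 N1 hK h2
    calc (H n).edist M1 N1 ≤ (H n).edist M1 K1 + (H n).edist K1 N1 := SimpleGraph.edist_triangle
      _ ≤ 1 + (w.length : ℕ∞) := add_le_add h3 h4
      _ = _ := by
        rw [SimpleGraph.Walk.length_cons]
        push_cast
        rw [add_comm]

/-- the distance is invariant under rotations -/
lemma edist_rot' (hC : S_CEN) (hR : S_ROT) (hn : Odd n) {s : ℕ} {M N M1 N1 : Matching n}
    (h1 : RotBy s M M1) (h2 : RotBy s N N1) : (H n).edist M1 N1 ≤ (H n).edist M N := by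
  have e : (H n).edist M N = ⨅ w : (H n).Walk M N, (w.length : ℕ∞) := rfl
  rw [e]
  exact le_iInf fun w => edist_rot_le hC hR hn w M1 N1 h1 h2

/-- the distance is invariant under rotations -/
lemma edist_rot (hC : S_CEN) (hR : S_ROT) (hn : Odd n) {s : ℕ} {M N M1 N1 : Matching n}
    (h1 : RotBy s M M1) (h2 : RotBy s N N1) : (H n).edist M1 N1 = (H n).edist M N := by
  obtain ⟨t, ht, -⟩ := exists_inv hn.pos s
  exact le_antisymm (edist_rot' hC hR hn h1 h2)
    (edist_rot' hC hR hn (rot_back ht hn.pos h1) (rot_back ht hn.pos h2))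

end Pool.Agent.E8helper36.CF
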