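import Pool.Agent.E8helper36.CF.Base

/-!
# Project CF (MP_717b2e_co): upper bound for the diameter of the centered-flip graph. Statements.
-/

set_option autoImplicit false

namespace Pool.Agent.E8helper36.CF

variable {n : ℕ}

/-- combinatorial form of the centered flip -/
def CF (M M' : Matching n) : Prop :=
  ∃ a b c d : Fin (2 * n), a < b ∧ b < c ∧ c < d ∧ (b : ℕ) ≤ a + n ∧ (c : ℕ) ≤ b + n ∧
    (d : ℕ) ≤ c + n ∧ (a : ℕ) + n ≤ d ∧ (Rep M M' a b c d ∨ Rep M' M a b c d)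

/-- `M` contains a diameter -/
def Dm (M : Matching n) : Prop := ∃ i : Fin (2 * n), (M.m i : ℕ) = i + n

/-- all edges have linear length `< n` -/
def Nrm (M : Matching n) : Prop := ∀ i : Fin (2 * n), (M.m i : ℕ) < i + n

/-- no edge covers `i`, and `i` is the first point of its edge -/
def Top (M : Matching n) (i : Fin (2 * n)) : Prop := ∀ j, j < i → M.m j < i

/-- the rotation of the points -/
def sh (n s : ℕ) (i : Fin (2 * n)) : Fin (2 * n) :=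
  ⟨(i + s) % (2 * n), Nat.mod_lt _ (by have := i.2; omega)⟩

/-- `M'` is `M` rotated by `s` -/
def RotBy (s : ℕ) (M M' : Matching n) : Prop := ∀ i, M'.m (sh n s i) = sh n s (M.m i)

/-- CEN: the center is in the convex hull. -/
def S_CEN : Prop := ∀ n a b c d : ℕ, a < b → b < c → c < d → d < 2 * n → b ≤ a + n → c ≤ b + n →
  d ≤ c + n → a + n ≤ d →
  (0 : ℂ) ∈ convexHull ℝ {P n (a : ℕ), P n (b : ℕ), P n (c : ℕ), P n (d : ℕ)}

/-- ROT: rotations. -/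
def S_ROT : Prop := ∀ (n s : ℕ), Odd n →
  (∀ M : Matching n, ∃ M' : Matching n, RotBy s M M') ∧
  (∀ M M' N N' : Matching n, RotBy s M M' → RotBy s N N' → CF M N → CF M' N') ∧
  (∀ M M' : Matching n, RotBy s M M' → Pot M' = (-1) ^ s * Pot M)

/-- NRM: a matching without diameters has a rotation with all linear lengths `< n`. -/
def S_NRM : Prop := ∀ (n : ℕ), Odd n → ∀ M : Matching n, ¬ Dm M →
  ∃ s : ℕ, ∀ M' : Matching n, RotBy s M M' → Nrm M'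

/-- FL1, FL2: existence of the flips. -/
def S_FL1 : Prop := ∀ (n : ℕ) (M : Matching n) (a b c d : Fin (2 * n)), a < b → b < c → c < d →
  M.m a = b → M.m c = d → (∀ i, b < i → i < c → b < M.m i ∧ M.m i < c) →
  ∃ M' : Matching n, Rep M M' a b c d

def S_FL2 : Prop := ∀ (n : ℕ) (M : Matching n) (a b c d : Fin (2 * n)), a < b → b < c → c < d →
  M.m b = c → M.m a = d → (∀ i, a < i → i < b → a < M.m i ∧ M.m i < b) →
  ∃ M' : Matching n, Rep M' M a b c d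

/-- POT: the change of the weight. -/
def S_POT : Prop := ∀ (n : ℕ), Odd n → ∀ (M M' : Matching n) (a b c d : Fin (2 * n)),
  a < b → b < c → c < d → (b : ℕ) ≤ a + n → (c : ℕ) ≤ b + n → (d : ℕ) ≤ c + n → (a : ℕ) + n ≤ d →
  Rep M M' a b c d →
  (((b : ℕ) = a + n ∨ (c : ℕ) = b + n ∨ (d : ℕ) = c + n ∨ (d : ℕ) = a + n) →
    Pot M' = Pot M + (if (a : ℕ) % 2 = 0 then -(2 * (n : ℤ)) else 2 * n)) ∧
  (¬ ((b : ℕ) = a + n ∨ (c : ℕ) = b + n ∨ (d : ℕ) = c + n ∨ (d : ℕ) = a + n) →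
    Pot M' = Pot M + (if (a : ℕ) % 2 = 0 then 2 * (n : ℤ) else -(2 * n)))

/-- TOP -/
def S_TOP : Prop := ∀ (n : ℕ) (M : Matching n) (i : Fin (2 * n)), Top M i →
  (i : ℕ) % 2 = 0 ∧ i < M.m i ∧ ∀ j : Fin (2 * n), (j : ℕ) = M.m i + 1 → Top M j

/-- CLO -/
def S_CLO : Prop := ∀ (n : ℕ), Odd n → 3 ≤ n → ∀ M : Matching n, Nrm M →
  (∃ u v, Top M u ∧ Top M v ∧ ((v : ℕ) + 1 = u + n ∨ (v : ℕ) = u + n + 1)) → M ≠ matA n →
  ∃ x y, Top M x ∧ Top M y ∧ ((y : ℕ) + 1 = x + n ∨ (x : ℕ) = y + n + 1) ∧ (M.m y : ℕ) ≠ y + 1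

/-- KST -/
def S_KST : Prop := ∀ (n : ℕ), Odd n → 3 ≤ n → ∀ M : Matching n, Nrm M →
  ∀ x y, Top M x → Top M y → ((y : ℕ) + 1 = x + n ∨ (x : ℕ) = y + n + 1) → (M.m y : ℕ) ≠ y + 1 →
  ∃ M2 M3 : Matching n, CF M M2 ∧ CF M2 M3 ∧ Dm M3 ∧ Pot M3 = Pot M + 4 * n

/-- DST -/
def S_DST : Prop := ∀ (n : ℕ), Odd n → 3 ≤ n → ∀ M : Matching n,
  (∀ i : Fin (2 * n), (i : ℕ) = 0 → (M.m i : ℕ) = n) →
  ∃ M1 : Matching n, CF M M1 ∧ Nrm M1 ∧ Pot M1 = Pot M + 2 * n ∧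
    ∃ u v, Top M1 u ∧ Top M1 v ∧ (v : ℕ) = u + n + 1

/-- UST: a step towards a diameter. -/
def S_UST : Prop := ∀ (n : ℕ), Odd n → 3 ≤ n → ∀ M : Matching n, Nrm M →
  (∃ M' : Matching n, CF M M' ∧ Dm M') ∨
  (∃ z : Fin (2 * n), Top M z ∧ (z : ℕ) + 1 < n ∧ n < (M.m z : ℕ) ∧
    ∃ M' M'' : Matching n, CF M M' ∧ RotBy (2 * n - 1) M' M'' ∧ Nrm M'' ∧
      ∀ z'' : Fin (2 * n), Top M'' z'' → (z'' : ℕ) + 1 < n → n < (M''.m z'' : ℕ) →
        (M''.m z'' : ℕ) + z + 2 ≤ M.m z + z'')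

/-- UU: every matching is near a matching with a diameter. -/
def S_UU : Prop := ∀ (n : ℕ), Odd n → 5 ≤ n → ∀ M : Matching n,
  ∃ M' : Matching n, Dm M' ∧ (H n).edist M M' ≤ (((n - 3) / 2 : ℕ) : ℕ∞)

/-- IND: the distance to `matA`. -/
def S_IND : Prop := ∀ (n : ℕ), Odd n → 3 ≤ n → ∀ M : Matching n, Dm M →
  ∃ k : ℕ, (H n).edist M (matA n) ≤ (k : ℕ∞) ∧ (2 * n * k : ℤ) + Pot M = n * (3 * n - 7)

end Pool.Agent.E8helper36.CF
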