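import Pool.Agent.E8helper36.CF.Stm

/-!
# Project CF36: the better bound `3 n - 7 + 2 ⌊(n + 3) / 6⌋`. Statements.
-/

set_option autoImplicit false

namespace Pool.Agent.E8helper36.CF

/-- UST2: as UST, with another measure. -/
def S_UST2 : Prop := ∀ (n : ℕ), Odd n → 3 ≤ n → ∀ M : Matching n, Nrm M →
  (∃ M' : Matching n, CF M M' ∧ Dm M') ∨
  (∃ z : Fin (2 * n), Top M z ∧ (z : ℕ) + 1 < n ∧ n < (M.m z : ℕ) ∧
    ∃ M' M'' : Matching n, CF M M' ∧ RotBy (2 * n - 1) M' M'' ∧ Nrm M'' ∧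
      ∀ z'' : Fin (2 * n), Top M'' z'' → (z'' : ℕ) + 1 < n → n < (M''.m z'' : ℕ) →
        (M''.m z'' : ℕ) + 2 ≤ M.m z)

/-- CH1: choice of a point `x` for which the edge that covers the opposite point `y` ends early. -/
def S_CH1 : Prop := ∀ (n W : ℕ), Odd n → 3 ≤ n → n < 6 * W + 3 → ∀ M : Matching n, Nrm M →
  ∃ x : Fin (2 * n), Top M x ∧ ∀ y z : Fin (2 * n),
    ((y : ℕ) + 1 = x + n ∨ (x : ℕ) = y + n + 1) → Top M z → z < y → y < M.m z →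
    (M.m z : ℕ) < y + 1 + 2 * W

/-- CH2: the same after a rotation. -/
def S_CH2 : Prop := ∀ (n W : ℕ), Odd n → 3 ≤ n → n < 6 * W + 3 → ∀ M : Matching n, Nrm M →
  ∃ s : ℕ, ∀ M' : Matching n, RotBy s M M' → Nrm M' ∧
    ∀ z : Fin (2 * n), Top M' z → (z : ℕ) + 1 < n → n < (M'.m z : ℕ) → (M'.m z : ℕ) < n + 2 * W

/-- UU2: every matching is near a matching with a diameter. -/
def S_UU2 : Prop := ∀ (n : ℕ), Odd n → 3 ≤ n → ∀ M : Matching n,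
  ∃ M' : Matching n, Dm M' ∧ (H n).edist M M' ≤ (((n + 3) / 6 : ℕ) : ℕ∞)

end Pool.Agent.E8helper36.CF
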