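import Pool.Agent.E8helper36.CF.Stm2

/-!
# Project CF (MP_717b2e_co), part UST: a step towards a diameter
-/

set_option autoImplicit false

namespace Pool.Agent.E8helper36.CF.U2

open Pool.Agent.E8helper36.CF

theorem t_UST2 : S_ROT → S_FL1 → S_TOP → S_UST2 := by
  intro hrot hfl htop n hn h3 M hM
  have hn' := hn
  obtain ⟨k, hk⟩ := hn'
  obtain ⟨y, hyv⟩ : ∃ y : Fin (2 * n), (y : ℕ) = n - 1 := ⟨⟨n - 1, by omega⟩, rfl⟩
  obtain ⟨e, hev⟩ : ∃ e : Fin (2 * n), (e : ℕ) = 2 * n - 1 := ⟨⟨2 * n - 1, by omega⟩, rfl⟩
  obtain ⟨o, hov⟩ : ∃ o : Fin (2 * n), (o : ℕ) = 0 := ⟨⟨0, by omega⟩, rfl⟩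
  by_cases hT : Top M y
  · left
    obtain ⟨-, hlt, -⟩ := htop n M y hT
    have hMw : M.m (M.m e) = e := M.inv e
    have hMb : M.m (M.m y) = y := M.inv y
    have h1 : (M.m y : ℕ) < y + n := hM y
    have h2 : (e : ℕ) < M.m e + n := by
      have := hM (M.m e)
      rwa [hMw] at this
    have hlt' : (y : ℕ) < M.m y := hlt
    have hwe : (M.m e : ℕ) ≠ e := fun h => M.ne e (Fin.ext h)
    have hwlt : (M.m e : ℕ) < e := by
      have := (M.m e).2
      omega
    have hwb : M.m y < M.m e := by
      rcases lt_trichotomy (M.m y) (M.m e) with h | h | h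
      · exact h
      · exfalso
        have h4 : y = e := by rw [← hMb, h, hMw]
        have h5 := congrArg Fin.val h4
        omega
      · exfalso
        have hyw : y < M.m e := by
          show (y : ℕ) < M.m e
          omega
        refine M.nc y (M.m e) hyw h ?_
        rw [hMw]
        show (M.m y : ℕ) < e
        omega
    have hwb' : (M.m y : ℕ) < M.m e := hwb
    obtain ⟨M1, hM1⟩ := hfl n M y (M.m y) (M.m e) e hlt hwb hwlt rfl hMw (by
      intro i hi1 hi2
      have hi1' : (M.m y : ℕ) < i := hi1
      have hi2' : (i : ℕ) < M.m e := hi2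
      constructor
      · rcases lt_trichotomy (M.m y) (M.m i) with h | h | h
        · exact h
        · exfalso
          have h4 : y = i := by rw [← M.inv y, h, M.inv]
          have h5 := congrArg Fin.val h4
          omega
        · exfalso
          rcases lt_trichotomy (M.m i) y with h6 | h6 | h6
          · have h7 := hT (M.m i) h6
            rw [M.inv] at h7
            have h8 : (i : ℕ) < y := h7
            omega
          · have h7 : i = M.m y := by rw [← h6, M.inv]
            have h8 := congrArg Fin.val h7
            omega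
          · refine M.nc y (M.m i) h6 h ?_
            rw [M.inv]
            exact hi1
      · rcases lt_trichotomy (M.m i) (M.m e) with h | h | h
        · exact h
        · exfalso
          have h4 : i = e := by rw [← M.inv i, h, M.inv]
          have h5 := congrArg Fin.val h4
          omega
        · exfalso
          have h6 := M.nc i (M.m e) hi2 h
          rw [hMw] at h6
          have h7 : ¬ (M.m i : ℕ) < e := h6
          have h8 := (M.m i).2
          have h9 : M.m i = e := Fin.ext (by omega)
          have h10 : i = M.m e := by rw [← h9, M.inv]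
          have h11 := congrArg Fin.val h10
          omega)
    refine ⟨M1, ⟨y, M.m y, M.m e, e, hlt, hwb, hwlt, by omega, by omega, by omega, by omega,
      Or.inl hM1⟩, y, ?_⟩
    rw [hM1.ad]
    omega
  · -- the smallest `z < y` with `M.m z ≥ y`
    have hex : ∃ j : ℕ, ∃ i : Fin (2 * n), (i : ℕ) = j ∧ i < y ∧ y ≤ M.m i := by
      unfold Pool.Agent.E8helper36.CF.Top at hT
      push Not at hT
      obtain ⟨j, hj1, hj2⟩ := hT
      exact ⟨j, j, rfl, hj1, hj2⟩
    classical
    obtain ⟨z, hz0, hzy, hyz⟩ := Nat.find_spec hex
    have hmin : ∀ i : Fin (2 * n), i < y → y ≤ M.m i → (z : ℕ) ≤ i := by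
      intro i h1 h2
      rw [hz0]
      exact Nat.find_min' hex ⟨i, rfl, h1, h2⟩
    have hzy' : (z : ℕ) < y := hzy
    have hyz' : (y : ℕ) ≤ M.m z := hyz
    have hzD : z < M.m z := by
      show (z : ℕ) < M.m z
      omega
    have hTz : Top M z := by
      intro j hj
      have hj' : (j : ℕ) < z := hj
      have hjy : j < y := lt_trans hj hzy
      have h1 : ¬ y ≤ M.m j := fun h => by
        have := hmin j hjy h
        omega
      have h1' : ¬ (y : ℕ) ≤ M.m j := h1
      rcases lt_trichotomy (M.m j) z with h | h | h
      · exact h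
      · exfalso
        have h4 : j = M.m z := by rw [← h, M.inv]
        have h5 := congrArg Fin.val h4
        omega
      · exfalso
        refine M.nc j z hj h ?_
        show (M.m j : ℕ) < M.m z
        omega
    obtain ⟨hzev, -, -⟩ := htop n M z hTz
    have hpar := parity M hzD rfl
    have hzn : (M.m z : ℕ) < z + n := hM z
    have hDn : n ≤ (M.m z : ℕ) := by omega
    have hz1 : (z : ℕ) ≠ 0 := by omega
    have hoz : o < z := by
      show (o : ℕ) < z
      omega
    have hoB' : (M.m o : ℕ) ≠ o := fun h => M.ne o (Fin.ext h)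
    have hoB : o < M.m o := by
      show (o : ℕ) < M.m o
      omega
    have hBz : M.m o < z := hTz o hoz
    have hBz' : (M.m o : ℕ) < z := hBz
    have hoB2 : (o : ℕ) < M.m o := hoB
    obtain ⟨M1, hM1⟩ := hfl n M o (M.m o) z (M.m z) hoB hBz hzD rfl rfl (by
      intro i hi1 hi2
      have hi1' : (M.m o : ℕ) < i := hi1
      have hi2' : (i : ℕ) < z := hi2
      refine ⟨?_, hTz i hi2⟩
      rcases lt_trichotomy (M.m o) (M.m i) with h | h | h
      · exact h
      · exfalso
        have h4 : o = i := by rw [← M.inv o, h, M.inv]
        have h5 := congrArg Fin.val h4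
        omega
      · exfalso
        by_cases h6 : (M.m i : ℕ) = o
        · have h7 : i = M.m o := by rw [← Fin.ext h6, M.inv]
          have h8 := congrArg Fin.val h7
          omega
        · refine M.nc o (M.m i) ?_ h ?_
          · show (o : ℕ) < M.m i
            omega
          · rw [M.inv]
            exact hi1)
    have hon : (M.m o : ℕ) < o + n := hM o
    have hCF : CF M M1 := ⟨o, M.m o, z, M.m z, hoB, hBz, hzD, by omega, by omega, by omega,
      by omega, Or.inl hM1⟩
    by_cases hD : (M.m z : ℕ) = n
    · left
      refine ⟨M1, hCF, o, ?_⟩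
      rw [hM1.ad]
      omega
    · right
      have hDn' : n < (M.m z : ℕ) := by omega
      refine ⟨z, hTz, by omega, hDn', ?_⟩
      obtain ⟨M2, hM2⟩ := (hrot n (2 * n - 1) hn).1 M1
      -- the values of `M2`
      have hsh0 : (sh n (2 * n - 1) o : ℕ) = 2 * n - 1 := by
        show ((o : ℕ) + (2 * n - 1)) % (2 * n) = 2 * n - 1
        rw [hov, zero_add, Nat.mod_eq_of_lt (by omega)]
      have hsh : ∀ i : Fin (2 * n), (i : ℕ) ≠ 0 → (sh n (2 * n - 1) i : ℕ) = i - 1 := by
        intro i hi
        show ((i : ℕ) + (2 * n - 1)) % (2 * n) = i - 1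
        have h1 : (i : ℕ) + (2 * n - 1) = (i - 1) + 2 * n := by omega
        have h2 := i.2
        rw [h1, Nat.add_mod_right, Nat.mod_eq_of_lt (by omega)]
      have hMD : M1.m (M.m z) = o := by rw [← hM1.ad, M1.inv]
      have hMz : M1.m z = M.m o := by rw [← hM1.bc, M1.inv]
      -- the edges of `M1` away from `o`
      have hedge : ∀ i : Fin (2 * n), (i : ℕ) ≠ 0 → i ≠ M.m z → (M1.m i : ℕ) ≠ 0 ∧
          (M1.m i : ℕ) < i + n := by
        intro i hi1 hi2
        have hne : (M1.m i : ℕ) ≠ 0 := by
          intro h
          have h1 : M1.m i = o := Fin.ext (by omega)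
          have h2 : i = M1.m o := by rw [← h1, M1.inv]
          rw [hM1.ad] at h2
          exact hi2 h2
        refine ⟨hne, ?_⟩
        by_cases hi3 : i = M.m o
        · rw [hi3, hM1.bc]
          omega
        · by_cases hi4 : i = z
          · rw [hi4, hMz]
            omega
          · rw [hM1.rest i (fun h => hi1 (by rw [h, hov])) hi3 hi4 hi2]
            exact hM i
      have hpt : ∀ i : Fin (2 * n), (i : ℕ) + 1 < 2 * n → ∃ x : Fin (2 * n), (x : ℕ) = i + 1 ∧
          sh n (2 * n - 1) x = i := by
        intro i hi
        refine ⟨⟨i + 1, hi⟩, rfl, Fin.ext ?_⟩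
        rw [hsh _ (by simp)]
        simp
      have hlast : ∀ i : Fin (2 * n), ¬ (i : ℕ) + 1 < 2 * n → i = sh n (2 * n - 1) o := by
        intro i hi
        have := i.2
        exact Fin.ext (by rw [hsh0]; omega)
      refine ⟨M1, M2, hCF, hM2, ?_, ?_⟩
      · intro i
        by_cases hi : (i : ℕ) + 1 < 2 * n
        · obtain ⟨x, hx1, hx2⟩ := hpt i hi
          have h1 := hM2 x
          rw [hx2] at h1
          rw [h1]
          by_cases hxD : x = M.m z
          · rw [hxD, hMD, hsh0]
            have : (x : ℕ) = M.m z := congrArg Fin.val hxD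
            omega
          · obtain ⟨h4, h5⟩ := hedge x (by omega) hxD
            rw [hsh _ h4]
            omega
        · have h1 := hM2 o
          rw [← hlast i hi, hM1.ad] at h1
          rw [h1, hsh _ (by omega)]
          have := (M.m z).2
          have := i.2
          omega
      · intro i _ hi1 hi2
        obtain ⟨x, hx1, hx2⟩ := hpt i (by omega)
        have h1 := hM2 x
        rw [hx2] at h1
        rw [h1] at hi2 ⊢
        have hxD : x ≠ M.m z := by
          intro h
          have : (x : ℕ) = M.m z := congrArg Fin.val h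
          omega
        obtain ⟨h4, h5⟩ := hedge x (by omega) hxD
        rw [hsh _ h4] at hi2 ⊢
        have hxB : x ≠ M.m o := by
          intro h
          rw [h, hM1.bc] at hi2
          omega
        have hxz : x ≠ z := by
          intro h
          rw [h, hMz] at hi2
          omega
        have hxo : x ≠ o := by
          intro h
          have : (x : ℕ) = o := congrArg Fin.val h
          omega
        rw [hM1.rest x hxo hxB hxz hxD] at hi2 ⊢
        have hzx : (z : ℕ) < x := by
          have h6 : (x : ℕ) ≠ z := fun h => hxz (Fin.ext h)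
          by_cases h7 : (x : ℕ) < y
          · have := hmin x h7 (by
              show (y : ℕ) ≤ M.m x
              omega)
            omega
          · omega
        have hxe : (M.m x : ℕ) < M.m z := by
          have h6 : ¬ M.m z < M.m x := M.nc z x hzx (by
            show (x : ℕ) < M.m z
            omega)
          have h7 : ¬ (M.m z : ℕ) < M.m x := h6
          have h8 : (M.m x : ℕ) ≠ M.m z := by
            intro h
            have h9 : x = z := by rw [← M.inv x, Fin.ext h, M.inv]
            exact hxz h9
          omega
        omega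

end Pool.Agent.E8helper36.CF.U2
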